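import Mathlib
import Pool.Agent.Lib.MP_4bab84_h56.Five

set_option autoImplicit false

namespace Pool.Agent.Results.MP_4bab84_co.FiveConnectedAntichain

open Pool.Agent.Lib.MP_4bab84_co Pool.Agent.Lib.T5

/-- An induced-minor-closed class of planar graphs without large alternating double wheels that
contains an infinite antichain of 5-connected graphs of maximum degree at most six. -/
theorem result :
    ∃ F : Set FinGraph, (∀ G ∈ F, Planar G) ∧ (∀ G ∈ F, ∀ H, Model H G → H ∈ F) ∧
      (∀ k, 13 ≤ k → (⟨2 * k + 2, wheel k⟩ : FinGraph) ∉ F) ∧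
      ∃ g : ℕ → FinGraph, (∀ i, g i ∈ F ∧ FiveConnected (g i) ∧
        ∀ v, ((g i).2.neighborSet v).ncard ≤ 6) ∧ ∀ i j, i ≠ j → ¬ Model (g i) (g j) :=
  five_main

end Pool.Agent.Results.MP_4bab84_co.FiveConnectedAntichain
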