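import Mathlib
import Pool.Agent.Lib.IM.Top

set_option autoImplicit false

namespace Pool.Agent.Results.MP_4bab84_co.MinorClosedDichotomy

open Pool.Agent.Lib.NC4b Pool.Agent.Lib.IM

/-- A minor-closed class of finite graphs is well-quasi-ordered by induced minors if and only if
it contains only finitely many double fans, lozenge chains and hub chains. -/
theorem result (F : Set FinGraph) (hF : ∀ G ∈ F, ∀ H, Minor H G → H ∈ F) :
    (∀ g : ℕ → FinGraph, (∀ i, g i ∈ F) → ∃ i j, i < j ∧ IndMinor (g i) (g j)) ↔
      {n | fan n ∈ F ∨ loz n ∈ F ∨ hub n ∈ F}.Finite :=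
  dichotomy F hF

end Pool.Agent.Results.MP_4bab84_co.MinorClosedDichotomy
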