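import Mathlib
import Pool.Agent.Lib.NC4b.Toep

set_option autoImplicit false

namespace Pool.Agent.Results.MP_4bab84_co.NoCanonicalFamily

open Pool.Agent.Lib.NC4b

/-- No family `A` of graphs whatever decides well-quasi-ordering of the induced-minor-closed
classes of planar graphs by finiteness of the intersection with `A`. -/
theorem result (A : Set FinGraph) :
    ∃ F : Set FinGraph, (∀ G ∈ F, Planar G) ∧ (∀ G ∈ F, ∀ H, IndMinor H G → H ∈ F) ∧
      ¬ ((∀ g : ℕ → FinGraph, (∀ i, g i ∈ F) → ∃ i j, i < j ∧ IndMinor (g i) (g j)) ↔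
        (F ∩ A).Finite) :=
  no_family A

end Pool.Agent.Results.MP_4bab84_co.NoCanonicalFamily
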